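import Pool.Agent.Q85.LND.TypeA

/-!
MP_37b72a_ag: an affine surface of type A such that the images of the locally nilpotent derivations
of its coordinate ring generate a proper ideal.

With `x = t - 1` the coordinate ring is
`S = K[t, 1/t, x a, a (x a - 1), a ^ 2 (x a - 1)] ⊆ K[t, 1/t][a]`. All locally nilpotent
derivations of `S` vanish along the curve `t = 1` of `Spec K[t, 1/t][a]`, while the cylinder
`Spec S[u]` has enough locally nilpotent derivations with a slice: the kernels of
`∂/∂u + k u ^ (k - 1) x ∂/∂a` and `∂/∂u ∓ (x b - 1) (3 x b - 1) (∂/∂a - ∂/∂u)`, `b = a + u`,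
generate `S[u]`.
-/

set_option autoImplicit false
set_option linter.unusedSectionVars false
set_option linter.unusedSimpArgs false

open Polynomial

namespace Pool.Agent.Results.MP_37b72a_ag.TypeAProperImageIdeal

open Pool.Agent.H868R3 Pool.Agent.Q85.LND

universe u

section example_

variable (K : Type u) [Field K] [CharZero K]

/-- `x = t - 1` -/
noncomputable def xx : LaurentPolynomial K := LaurentPolynomial.T 1 - LaurentPolynomial.C 1

/-- `z = x a` -/
noncomputable def zz : (LaurentPolynomial K)[X] := C (xx K) * X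

/-- `y = a (x a - 1)` -/
noncomputable def yy : (LaurentPolynomial K)[X] := X * (C (xx K) * X - 1)

/-- `w = a ^ 2 (x a - 1)` -/
noncomputable def ww : (LaurentPolynomial K)[X] := X ^ 2 * (C (xx K) * X - 1)

/-- `S = K[t, 1/t, x a, a (x a - 1), a ^ 2 (x a - 1)]` -/
noncomputable def SS : Subalgebra K (LaurentPolynomial K)[X] :=
  Algebra.adjoin K {C (LaurentPolynomial.T 1), C (LaurentPolynomial.T (-1)), zz K, yy K, ww K}

variable {K}

lemma evL_xx (c : Kˣ) : evL c (xx K) = (c : K) - 1 := by
  rw [xx, map_sub, evL_T, LaurentPolynomial.C_eq_algebraMap, AlgHom.commutes]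
  simp

lemma xx_ne : xx K ≠ 0 := by
  intro h
  have := congrArg (evL (Units.mk0 (2 : K) two_ne_zero)) h
  rw [evL_xx, map_zero, Units.val_mk0] at this
  norm_num at this

lemma zz_mem : zz K ∈ SS K := Algebra.subset_adjoin (by simp)
lemma yy_mem : yy K ∈ SS K := Algebra.subset_adjoin (by simp)
lemma ww_mem : ww K ∈ SS K := Algebra.subset_adjoin (by simp)

lemma C_mem_SS (r : LaurentPolynomial K) : C r ∈ SS K := by
  have h : (⊤ : Subalgebra K (LaurentPolynomial K)) ≤
      (SS K).comap (IsScalarTower.toAlgHom K (LaurentPolynomial K) (LaurentPolynomial K)[X]) := by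
    rw [← laurent_adjoin]
    apply Algebra.adjoin_le
    rintro x hx
    rcases hx with rfl | hx
    · exact Algebra.subset_adjoin (by simp)
    · rw [Set.mem_singleton_iff] at hx
      subst hx
      exact Algebra.subset_adjoin (by simp)
  exact h (show r ∈ ⊤ from trivial)

/-- `x ∂/∂a` preserves `S` -/
lemma xx_derivative_mem {f : (LaurentPolynomial K)[X]} (hf : f ∈ SS K) :
    C (xx K) * derivative f ∈ SS K := by
  refine Algebra.adjoin_induction (R := K)
    (p := fun f _ => C (xx K) * derivative f ∈ SS K) ?_ ?_ ?_ ?_ hf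
  · intro f hf
    simp only [Set.mem_insert_iff, Set.mem_singleton_iff] at hf
    rcases hf with rfl | rfl | rfl | rfl | rfl
    · rw [derivative_C, mul_zero]; exact (SS K).zero_mem
    · rw [derivative_C, mul_zero]; exact (SS K).zero_mem
    · have : C (xx K) * derivative (zz K) = C (xx K * xx K) := by
        simp [zz]
      rw [this]; exact C_mem_SS _
    · have : C (xx K) * derivative (yy K) = C (xx K) * (2 * zz K - 1) := by
        simp only [yy, zz, derivative_mul, derivative_sub, derivative_X, derivative_C,
          derivative_one]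
        ring
      rw [this]
      refine (SS K).mul_mem (C_mem_SS _) ((SS K).sub_mem ((SS K).mul_mem ?_ zz_mem) (SS K).one_mem)
      exact (SS K).natCast_mem 2
    · have : C (xx K) * derivative (ww K) = zz K * (3 * zz K - 2) := by
        simp only [ww, zz, derivative_mul, derivative_sub, derivative_X, derivative_C,
          derivative_one, derivative_X_pow]
        simp only [Nat.cast_ofNat, map_ofNat]
        ring
      rw [this]
      refine (SS K).mul_mem zz_mem ((SS K).sub_mem ((SS K).mul_mem ?_ zz_mem) ?_)
      · exact (SS K).natCast_mem 3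
      · exact (SS K).natCast_mem 2
  · intro r
    rw [Polynomial.algebraMap_apply, derivative_C, mul_zero]; exact (SS K).zero_mem
  · intro f g _ _ hf hg
    rw [derivative_add, mul_add]
    exact (SS K).add_mem hf hg
  · intro f g hf' hg' hf hg
    have : C (xx K) * derivative (f * g) = (C (xx K) * derivative f) * g +
        f * (C (xx K) * derivative g) := by
      rw [derivative_mul]; ring
    rw [this]
    exact (SS K).add_mem ((SS K).mul_mem hf hg') ((SS K).mul_mem hf' hg)

/-- `S ⊆ K[t, 1/t] + (x a - 1)` -/
lemma exists_of_mem_SS {f : (LaurentPolynomial K)[X]} (hf : f ∈ SS K) :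
    ∃ (r : LaurentPolynomial K) (g : (LaurentPolynomial K)[X]),
      f = C r + (C (xx K) * X - 1) * g := by
  refine Algebra.adjoin_induction (R := K)
    (p := fun f _ => ∃ (r : LaurentPolynomial K) (g : (LaurentPolynomial K)[X]),
      f = C r + (C (xx K) * X - 1) * g) ?_ ?_ ?_ ?_ hf
  · intro f hf
    simp only [Set.mem_insert_iff, Set.mem_singleton_iff] at hf
    rcases hf with rfl | rfl | rfl | rfl | rfl
    · exact ⟨LaurentPolynomial.T 1, 0, by simp⟩
    · exact ⟨LaurentPolynomial.T (-1), 0, by simp⟩
    · exact ⟨1, 1, by simp only [zz, C_1]; ring⟩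
    · exact ⟨0, X, by simp only [yy, C_0]; ring⟩
    · exact ⟨0, X ^ 2, by simp only [ww, C_0]; ring⟩
  · intro r
    exact ⟨algebraMap K _ r, 0, by rw [Polynomial.algebraMap_apply]; simp⟩
  · rintro f g - - ⟨r, p, rfl⟩ ⟨s, q, rfl⟩
    exact ⟨r + s, p + q, by rw [C_add]; ring⟩
  · rintro f g - - ⟨r, p, rfl⟩ ⟨s, q, rfl⟩
    exact ⟨r * s, C r * q + C s * p + (C (xx K) * X - 1) * p * q, by rw [C_mul]; ring⟩

lemma eq_zero_of_dvd (s : LaurentPolynomial K) (g : (LaurentPolynomial K)[X])
    (h : C s = (C (xx K) * X - 1) * g) : s = 0 := by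
  by_contra hs
  have hg : g ≠ 0 := by
    rintro rfl
    rw [mul_zero, C_eq_zero] at h
    exact hs h
  have h1 : (C (xx K) * X - 1 : (LaurentPolynomial K)[X]).natDegree = 1 := by
    have : (C (xx K) * X - 1 : (LaurentPolynomial K)[X]) = C (xx K) * X + C (-1) := by
      rw [C_neg, C_1]; ring
    rw [this]
    exact natDegree_linear xx_ne
  have h2 : (C (xx K) * X - 1 : (LaurentPolynomial K)[X]) ≠ 0 := by
    intro h0
    rw [h0, natDegree_zero] at h1
    omega
  have h3 := congrArg natDegree h
  rw [natDegree_C, natDegree_mul h2 hg, h1] at h3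
  omega

/-- the restriction to the curve `t = 1` -/
noncomputable def atOne : (LaurentPolynomial K)[X] →ₐ[K] K[X] := mapAlgHom (evL (1 : Kˣ))

lemma atOne_C (r : LaurentPolynomial K) : atOne (C r) = C (evL (1 : Kˣ) r) := by
  simp [atOne]

/-- **All locally nilpotent derivations of `A` vanish along the curve `t = 1`.** -/
theorem lnd_vanishes {A : Type u} [CommRing A] [Algebra K A]
    (val : A →ₐ[K] (LaurentPolynomial K)[X]) (hval : Function.Injective val)
    (hr1 : ∀ a, val a ∈ SS K) (hr2 : ∀ p ∈ SS K, ∃ a, val a = p)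
    (δ : Derivation K A A) (hδ : IsLND δ) (f : A) :
    atOne (val (δ f)) = 0 := by
  have hcR : CharZero (LaurentPolynomial K) :=
    charZero_of_injective_algebraMap (algebraMap K (LaurentPolynomial K)).injective
  have hdA : IsDomain A := hval.isDomain (val : A →+* (LaurentPolynomial K)[X])
  -- constants are killed
  have hC : ∀ (r : LaurentPolynomial K) (a : A), val a = C r → δ a = 0 := by
    have h1 : (⊤ : Subalgebra K (LaurentPolynomial K)) ≤
        { carrier := {r | ∃ a : A, val a = C r ∧ δ a = 0}
          mul_mem' := by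
            rintro a b ⟨a', ha, ha'⟩ ⟨b', hb, hb'⟩
            refine ⟨a' * b', by rw [map_mul, ha, hb, C_mul], ?_⟩
            rw [Derivation.leibniz, ha', hb']
            simp
          add_mem' := by
            rintro a b ⟨a', ha, ha'⟩ ⟨b', hb, hb'⟩
            exact ⟨a' + b', by rw [map_add, ha, hb, C_add], by rw [map_add, ha', hb', add_zero]⟩
          algebraMap_mem' := by
            intro r
            exact ⟨algebraMap K A r, by rw [AlgHom.commutes]; rfl, Derivation.map_algebraMap _ _⟩ } := by
      rw [← laurent_adjoin]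
      apply Algebra.adjoin_le
      obtain ⟨t1, ht1⟩ := hr2 _ (C_mem_SS (LaurentPolynomial.T 1))
      obtain ⟨t2, ht2⟩ := hr2 _ (C_mem_SS (LaurentPolynomial.T (-1)))
      have hTT : t1 * t2 = 1 := by
        apply hval
        rw [map_mul, ht1, ht2, map_one, ← C_mul, T_mul_T_neg, C_1]
      rintro x hx
      rcases hx with rfl | hx
      · exact ⟨t1, ht1, unit_killed δ hδ hTT⟩
      · rw [Set.mem_singleton_iff] at hx
        subst hx
        exact ⟨t2, ht2, unit_killed δ hδ (by rw [mul_comm]; exact hTT)⟩
    intro r a ha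
    obtain ⟨b, hb, hb'⟩ := h1 (show r ∈ ⊤ from trivial)
    have : a = b := hval (by rw [ha, hb])
    rw [this, hb']
  obtain ⟨hz, hhz⟩ := hr2 _ (zz_mem (K := K))
  obtain ⟨hw, hhw⟩ := hr2 _ (ww_mem (K := K))
  obtain ⟨cc, hcc⟩ := hr2 _ (C_mem_SS (xx K))
  have hccd : δ cc = 0 := hC _ _ hcc
  have hc0 : (C (xx K) : (LaurentPolynomial K)[X]) ≠ 0 := by
    rw [Ne, C_eq_zero]
    exact xx_ne
  obtain ⟨q, hq⟩ : ∃ q, q = val (δ hz) := ⟨_, rfl⟩
  -- the formula for `δ`
  have good_mul : ∀ a b : A,
      C (xx K) * val (δ a) = q * derivative (val a) →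
      C (xx K) * val (δ b) = q * derivative (val b) →
      C (xx K) * val (δ (a * b)) = q * derivative (val (a * b)) := by
    intro a b ha hb
    rw [Derivation.leibniz, smul_eq_mul, smul_eq_mul, map_add, map_mul val a (δ b),
      map_mul val b (δ a), map_mul val a b, derivative_mul]
    linear_combination val b * ha + val a * hb
  have good_C : ∀ (r : LaurentPolynomial K) (a : A), val a = C r →
      C (xx K) * val (δ a) = q * derivative (val a) := by
    intro r a ha
    rw [hC r a ha, ha]
    simp
  have good_hz : C (xx K) * val (δ hz) = q * derivative (val hz) := by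
    rw [hhz, ← hq]
    simp only [zz, derivative_mul, derivative_C, derivative_X, C_mul]
    ring
  have good_pow : ∀ n : ℕ, C (xx K) * val (δ (hz ^ n)) =
      q * derivative (val (hz ^ n)) := by
    intro n
    induction n with
    | zero =>
      rw [pow_zero, Derivation.map_one_eq_zero]
      simp
    | succ n ih =>
      rw [pow_succ]
      exact good_mul _ _ ih good_hz
  have hclear : ∀ p : (LaurentPolynomial K)[X], ∃ (N : ℕ) (g : A),
      val g = C (xx K) ^ N * p ∧
      C (xx K) * val (δ g) = q * derivative (val g) := by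
    intro p
    induction p using Polynomial.induction_on' with
    | add p₁ p₂ h₁ h₂ =>
      obtain ⟨N₁, g₁, e₁, f₁⟩ := h₁
      obtain ⟨N₂, g₂, e₂, f₂⟩ := h₂
      have hpow : ∀ N : ℕ, C (xx K) * val (δ (cc ^ N)) =
          q * derivative (val (cc ^ N)) := by
        intro N
        exact good_C ((xx K) ^ N) _ (by rw [map_pow, hcc, C_pow])
      refine ⟨N₁ + N₂, cc ^ N₂ * g₁ + cc ^ N₁ * g₂, ?_, ?_⟩
      · rw [map_add, map_mul, map_mul, map_pow, map_pow, hcc, e₁, e₂]
        ring
      · have h3 := good_mul _ _ (hpow N₂) f₁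
        have h4 := good_mul _ _ (hpow N₁) f₂
        rw [map_add, map_add, map_add, mul_add, h3, h4, derivative_add, mul_add]
    | monomial n r =>
      obtain ⟨a, ha⟩ := hr2 _ (C_mem_SS r)
      refine ⟨n, a * hz ^ n, ?_, good_mul _ _ (good_C r a ha) (good_pow n)⟩
      rw [map_mul, map_pow, hhz, ha, ← C_mul_X_pow_eq_monomial]
      simp only [zz]
      ring
  have formula : ∀ f : A, C (xx K) * val (δ f) = q * derivative (val f) := by
    intro f
    obtain ⟨N, g, hg, hgood⟩ := hclear (val f)
    have h1 : g = cc ^ N * f := hval (by rw [hg, map_mul val, map_pow val, hcc])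
    have h2 : val (δ g) = C (xx K) ^ N * val (δ f) := by
      rw [h1, Derivation.leibniz, Derivation.leibniz_pow, hccd]
      simp only [smul_zero, add_zero, smul_eq_mul, mul_zero]
      rw [map_mul val, map_pow val, hcc]
    rw [h2, hg, ← C_pow, derivative_C_mul, C_pow] at hgood
    apply mul_left_cancel₀ (pow_ne_zero N hc0)
    linear_combination hgood
  -- `q` is a constant
  have hdeg : q.natDegree = 0 := by
    by_contra hne
    have hq0 : q ≠ 0 := by
      intro h; rw [h] at hne; simp at hne
    have step : ∀ g : A, 1 ≤ (val g).natDegree → 1 ≤ (val (δ g)).natDegree := by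
      intro g hg
      have h1 := formula g
      have h2 : (derivative (val g)).natDegree = (val g).natDegree - 1 :=
        natDegree_derivative _
      have h3 : derivative (val g) ≠ 0 := by
        intro h0
        have := Polynomial.derivative_eq_zero.mp h0
        omega
      have h4 := congrArg natDegree h1
      rw [natDegree_C_mul xx_ne, natDegree_mul hq0 h3, h2] at h4
      omega
    have iter : ∀ n : ℕ, 1 ≤ (val ((⇑δ)^[n] hz)).natDegree := by
      intro n
      induction n with
      | zero =>
        change 1 ≤ (val hz).natDegree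
        rw [hhz]
        rw [zz, natDegree_C_mul xx_ne, natDegree_X]
      | succ n ih =>
        rw [Function.iterate_succ_apply']
        exact step _ ih
    obtain ⟨n, hn⟩ := hδ hz
    have := iter n
    rw [hn] at this
    simp at this
  obtain ⟨q0, hq0⟩ : ∃ q0, q = C q0 := ⟨_, Polynomial.eq_C_of_natDegree_eq_zero hdeg⟩
  -- `x ^ 2` divides `q`
  obtain ⟨r, p1, hrp⟩ := exists_of_mem_SS (hr1 (δ hw))
  have h5 := formula hw
  rw [hhw, hq0, hrp] at h5
  have h6 : C (xx K) * (C r + (C (xx K) * X - 1) * p1) = C q0 * (X * (3 * (C (xx K) * X) - 2)) := by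
    rw [h5]
    simp only [ww, derivative_mul, derivative_sub, derivative_X, derivative_C,
          derivative_one, derivative_X_pow]
    simp only [Nat.cast_ofNat, map_ofNat]
    ring
  have h7 : C (xx K ^ 2 * r - q0) = (C (xx K) * X - 1) *
      (C q0 * (3 * (C (xx K) * X) + 1) - C (xx K) ^ 2 * p1) := by
    rw [C_sub, C_mul, C_pow]
    linear_combination C (xx K) * h6
  have h8 := eq_zero_of_dvd _ _ h7
  have h9 : q0 = xx K ^ 2 * r := (sub_eq_zero.mp h8).symm
  have h10 : val (δ f) = C (xx K) * (C r * derivative (val f)) := by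
    have hx0 : (C (xx K) : (LaurentPolynomial K)[X]) ≠ 0 := by
      rw [Ne, C_eq_zero]; exact xx_ne
    apply mul_left_cancel₀ hx0
    have := formula f
    rw [hq0, h9, C_mul, C_pow] at this
    linear_combination this
  rw [h10, map_mul, atOne_C, evL_xx]
  simp

theorem fixed_point {A : Type u} [CommRing A] [Algebra K A]
    (val : A →ₐ[K] (LaurentPolynomial K)[X]) (hval : Function.Injective val)
    (hr1 : ∀ a, val a ∈ SS K) (hr2 : ∀ p ∈ SS K, ∃ a, val a = p) :
    imageIdeal K A ≠ ⊤ ∧
      ∃ χ : A →ₐ[K] K, ∀ D : Derivation K A A, IsLND D → ∀ f : A, χ (D f) = 0 := by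
  have hvan := lnd_vanishes val hval hr1 hr2
  refine ⟨?_, ((Polynomial.aeval (0 : K)).comp (atOne.comp val)), ?_⟩
  · intro htop
    have h : imageIdeal K A ≤ RingHom.ker ((atOne.comp val : A →ₐ[K] K[X]) : A →+* K[X]) := by
      rw [imageIdeal, Ideal.span_le]
      rintro b ⟨D, hD, a, rfl⟩
      exact hvan D hD a
    rw [htop] at h
    have h1 := h (show (1 : A) ∈ ⊤ from trivial)
    rw [RingHom.mem_ker, map_one] at h1
    exact one_ne_zero h1
  · intro D hD f
    have h1 := hvan D hD f
    change Polynomial.aeval (0 : K) (atOne (val (D f))) = 0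
    rw [h1, map_zero]

lemma hder {f : (LaurentPolynomial K)[X]} (hf : f ∈ SS K) :
    QQ (xx K) * C (derivative f) ∈ LX (SS K) := by
  refine Algebra.adjoin_induction (R := K)
    (p := fun f _ => QQ (xx K) * C (derivative f) ∈ LX (SS K)) ?_ ?_ ?_ ?_ hf
  · intro f hf
    simp only [Set.mem_insert_iff, Set.mem_singleton_iff] at hf
    rcases hf with rfl | rfl | rfl | rfl | rfl
    · rw [derivative_C, C_0, mul_zero]; exact (LX _).zero_mem
    · rw [derivative_C, C_0, mul_zero]; exact (LX _).zero_mem
    · exact QQ_mul_z C_mem_SS zz_mem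
    · exact QQ_mul_y C_mem_SS zz_mem
    · exact QQ_mul_w C_mem_SS zz_mem yy_mem
  · intro r
    rw [Polynomial.algebraMap_apply, derivative_C, C_0, mul_zero]; exact (LX _).zero_mem
  · intro f g _ _ hf hg
    rw [derivative_add, C_add, mul_add]
    exact (LX _).add_mem hf hg
  · intro f g hf' hg' hf hg
    have : QQ (xx K) * C (derivative (f * g)) = (QQ (xx K) * C (derivative f)) * C g +
        C f * (QQ (xx K) * C (derivative g)) := by
      rw [derivative_mul, C_add, C_mul, C_mul]; ring
    rw [this]
    exact (LX _).add_mem ((LX _).mul_mem hf (C_mem_LX hg'))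
      ((LX _).mul_mem (C_mem_LX hf') hg)

end example_

/-- **Type A does not imply that the images of the locally nilpotent derivations generate the unit
ideal.** For every field `K` of characteristic zero there is a finitely generated domain `A` over
`K` with `HD*(A[u]) = A[u]`, i.e. `Spec A` is of type A, such that the images of the locally
nilpotent derivations of `A` generate a proper ideal, and there is a `K`-point `χ` of `Spec A` which
is fixed by all actions of the additive group, i.e. `χ (D f) = 0` for all locally nilpotent `D`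
and all `f`. -/
theorem result : ∀ (K : Type u) [Field K] [CharZero K],
    ∃ (A : Type u) (_ : CommRing A) (_ : Algebra K A),
      IsDomain A ∧ Algebra.FiniteType K A ∧
      HDStar K A[X] = ⊤ ∧ imageIdeal K A ≠ ⊤ ∧
      ∃ χ : A →ₐ[K] K, ∀ D : Derivation K A A, IsLND D → ∀ f : A, χ (D f) = 0 := by
  intro K _ _
  refine ⟨SS K, inferInstance, inferInstance, inferInstance, ?_, ?_,
    fixed_point (SS K).val Subtype.val_injective (fun a => a.2) (fun p hp => ⟨⟨p, hp⟩, rfl⟩)⟩
  · constructor
    rw [Subalgebra.fg_top]
    exact Subalgebra.fg_def.2 ⟨_, Set.toFinite _, rfl⟩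
  · exact hdstar_eq_top C_mem_SS zz_mem yy_mem ww_mem (fun f hf => xx_derivative_mem hf)
      (fun f hf => hder hf)

end Pool.Agent.Results.MP_37b72a_ag.TypeAProperImageIdeal
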